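import Pool.Agent.H65.EN.Targets

/-!
Row RSM of the board enx_modules: the sum over the small cells.
-/

set_option autoImplicit false

open Finset MeasureTheory

namespace Pool.Agent.H94.EN

open Pool.Agent.H24.CL Pool.Agent.H24.LV Pool.Agent.H31.LV Pool.Agent.H50.LV Pool.Agent.H65.EN

/-- dyadic decomposition of one value -/
theorem dyad (K n₀ : ℕ) (x : ℝ) (h0 : 0 ≤ x) (h1 : x ≤ 1) :
    x ^ K ≤ ∑ n ∈ range n₀, (if 1 / (2 : ℝ) ^ (n + 1) ≤ x then (1 / (2 : ℝ) ^ n) ^ K else 0) +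
      (1 / (2 : ℝ) ^ n₀) ^ K := by
  induction n₀ with
  | zero =>
    simp only [range_zero, sum_empty, pow_zero, div_one, one_pow, zero_add]
    exact pow_le_one₀ h0 h1
  | succ m ih =>
    rw [sum_range_succ]
    have hs : 0 ≤ ∑ n ∈ range m,
        (if 1 / (2 : ℝ) ^ (n + 1) ≤ x then (1 / (2 : ℝ) ^ n) ^ K else 0) :=
      sum_nonneg fun n _ => by split_ifs <;> positivity
    by_cases h : 1 / (2 : ℝ) ^ (m + 1) ≤ x
    · rw [if_pos h]
      have : 0 ≤ (1 / (2 : ℝ) ^ (m + 1)) ^ K := by positivity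
      linarith
    · rw [if_neg h]
      have : x ^ K ≤ (1 / (2 : ℝ) ^ (m + 1)) ^ K := pow_le_pow_left₀ h0 (not_le.mp h).le K
      linarith

theorem norm_ee' (x : ℝ) : ‖ee x‖ = 1 := by
  unfold ee
  exact Complex.norm_exp_ofReal_mul_I _

/-- the kernel is at most one -/
theorem KP_le {k : ℕ} (N h : ℕ) (η : Fin k → ℝ) (hh : h < N) : ‖KP N η 0 h‖ ≤ 1 := by
  have hN : (0 : ℝ) < N := by exact_mod_cast (by omega : 0 < N)
  have hle : (h : ℝ) ≤ N := by exact_mod_cast hh.le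
  have hh0 : (0 : ℝ) ≤ h := Nat.cast_nonneg h
  unfold KP
  rw [norm_mul]
  have h1 : ‖∫ y in (0 : ℝ)..(0 + N - h), ee (Ps η (y + h) - Ps η y)‖ ≤
      1 * |(0 + N - h : ℝ) - 0| := by
    apply intervalIntegral.norm_integral_le_of_norm_le_const
    intro y _
    exact (norm_ee' _).le
  have h2 : |(0 + N - h : ℝ) - 0| ≤ N := by
    rw [abs_of_nonneg (by linarith)]
    linarith
  have h3 : ‖(1 / (N : ℂ))‖ = 1 / (N : ℝ) := by
    rw [norm_div, norm_one, Complex.norm_natCast]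
  rw [h3]
  calc 1 / (N : ℝ) * _ ≤ 1 / (N : ℝ) * N := by
        apply mul_le_mul_of_nonneg_left _ (by positivity)
        linarith
    _ = 1 := by field_simp

open Classical in
theorem pf_RSM (h1 : T_RCN) : T_RSM := by
  intro k hk
  obtain ⟨C, hC, H⟩ := h1 k hk
  obtain ⟨a, ha⟩ : ∃ a : ℕ, a = KN (k - 1) + 1 := ⟨_, rfl⟩
  have hK : a + 2 ≤ KN k := by
    obtain ⟨j, rfl⟩ : ∃ j, k = j + 3 := ⟨k - 3, by omega⟩
    have e1 : j + 3 - 1 = j + 2 := by omega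
    rw [ha, e1]
    unfold KN
    have e2 : (j + 3) * (j + 3 + 1) = (j + 2) * (j + 2 + 1) + 2 * (j + 3) := by ring
    rw [e2]
    omega
  refine ⟨C * 2 ^ (a + 1) + 1, ?_, fun N M₁ h D hM hh hN => ?_⟩
  · have : (0 : ℝ) ≤ C * 2 ^ (a + 1) := by positivity
    linarith
  · obtain ⟨B, hB⟩ : ∃ B : ℝ, B = ((M₁ : ℝ) * N / h) ^ (k - 1) := ⟨_, rfl⟩
    have hh0 : (0 : ℝ) < h := by exact_mod_cast hh
    have hB1 : 1 ≤ B := by
      rw [hB]
      apply one_le_pow₀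
      rw [le_div_iff₀ hh0, one_mul]
      have h2 : (1 : ℝ) ≤ M₁ := by exact_mod_cast hM
      have h3 : (h : ℝ) ≤ N := by exact_mod_cast hN.le
      nlinarith
    rw [← hB]
    set x : (Fin k → ℤ) → ℝ := fun c => ‖KP N (ec N M₁ c) 0 h‖ with hx
    obtain ⟨M, hMc⟩ : ∃ M : ℕ, M = (Dc k D).card := ⟨_, rfl⟩
    have hd : ∀ c ∈ Dc k D, x c ^ KN k ≤ ∑ n ∈ range M,
        (if 1 / (2 : ℝ) ^ (n + 1) ≤ x c then (1 / (2 : ℝ) ^ n) ^ KN k else 0) +
          (1 / (2 : ℝ) ^ M) ^ KN k := fun c _ =>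
      dyad _ _ _ (norm_nonneg _) (KP_le N h _ hN)
    have hcnt : ∀ n ∈ range M, ∑ c ∈ Dc k D,
        (if 1 / (2 : ℝ) ^ (n + 1) ≤ x c then (1 / (2 : ℝ) ^ n) ^ KN k else 0) ≤
          C * 2 ^ a * B * (1 / 4) ^ n := by
      intro n _
      rw [← sum_filter, sum_const, nsmul_eq_mul]
      have h2 := H N M₁ h D ((2 : ℝ) ^ (n + 1)) hM hh hN (one_le_pow₀ (by norm_num))
      rw [← hB, ← ha] at h2
      have h3 : ((1 : ℝ) / 2 ^ n) ^ KN k ≤ (1 / 2 ^ n) ^ (a + 2) := by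
        apply pow_le_pow_of_le_one (by positivity) _ hK
        rw [div_le_one (by positivity)]
        exact one_le_pow₀ (by norm_num)
      have h4 : ((2 : ℝ) ^ (n + 1)) ^ a * (1 / 2 ^ n) ^ (a + 2) = 2 ^ a * (1 / 4) ^ n := by
        have e1 : ((1 : ℝ) / 2 ^ n) ^ (a + 2) = (1 / 2 ^ n) ^ a * (1 / 4) ^ n := by
          rw [pow_add]
          congr 1
          rw [← one_div_pow, ← pow_mul, mul_comm n 2, pow_mul]
          norm_num
        have e2 : (2 : ℝ) ^ (n + 1) * (1 / 2 ^ n) = 2 := by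
          rw [pow_succ]
          field_simp
        rw [e1, ← mul_assoc, ← mul_pow, e2]
      calc _ ≤ (C * ((2 : ℝ) ^ (n + 1)) ^ a * B) * (1 / 2 ^ n) ^ (a + 2) := by
            apply mul_le_mul h2 h3 (by positivity)
            positivity
        _ = C * B * (((2 : ℝ) ^ (n + 1)) ^ a * (1 / 2 ^ n) ^ (a + 2)) := by ring
        _ = C * 2 ^ a * B * (1 / 4) ^ n := by rw [h4]; ring
    have hgeo : ∀ m : ℕ, ∑ n ∈ range m, ((1 : ℝ) / 4) ^ n ≤ 2 := by
      intro m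
      have h5 : ∑ n ∈ range m, ((1 : ℝ) / 4) ^ n = (1 - (1 / 4) ^ m) * (4 / 3) := by
        rw [geom_sum_eq (by norm_num)]
        ring
      rw [h5]
      have h6 : (0 : ℝ) ≤ (1 / 4) ^ m := by positivity
      linarith
    have htail : (M : ℝ) * (1 / (2 : ℝ) ^ M) ^ KN k ≤ 1 := by
      have h7 : ((1 : ℝ) / 2 ^ M) ^ KN k ≤ (1 / 2 ^ M) ^ 1 := by
        apply pow_le_pow_of_le_one (by positivity) _ (by omega)
        rw [div_le_one (by positivity)]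
        exact one_le_pow₀ (by norm_num)
      rw [pow_one] at h7
      have h8 : (M : ℝ) ≤ 2 ^ M := by exact_mod_cast Nat.lt_two_pow_self.le
      calc (M : ℝ) * (1 / (2 : ℝ) ^ M) ^ KN k ≤ M * (1 / 2 ^ M) :=
            mul_le_mul_of_nonneg_left h7 (Nat.cast_nonneg M)
        _ ≤ 2 ^ M * (1 / 2 ^ M) := by gcongr
        _ = 1 := by field_simp
    calc ∑ c ∈ Dc k D, x c ^ KN k
        ≤ ∑ c ∈ Dc k D, (∑ n ∈ range M,
          (if 1 / (2 : ℝ) ^ (n + 1) ≤ x c then (1 / (2 : ℝ) ^ n) ^ KN k else 0) +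
            (1 / (2 : ℝ) ^ M) ^ KN k) := sum_le_sum hd
      _ = ∑ n ∈ range M, ∑ c ∈ Dc k D,
          (if 1 / (2 : ℝ) ^ (n + 1) ≤ x c then (1 / (2 : ℝ) ^ n) ^ KN k else 0) +
            M * (1 / (2 : ℝ) ^ M) ^ KN k := by
          rw [sum_add_distrib, sum_comm, sum_const, nsmul_eq_mul, ← hMc]
      _ ≤ ∑ n ∈ range M, C * 2 ^ a * B * (1 / 4) ^ n + 1 := add_le_add (sum_le_sum hcnt) htail
      _ = C * 2 ^ a * B * (∑ n ∈ range M, (1 / 4) ^ n) + 1 := by rw [← mul_sum]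
      _ ≤ C * 2 ^ a * B * 2 + 1 := by
          have : 0 ≤ C * 2 ^ a * B := by positivity
          nlinarith [hgeo M]
      _ ≤ (C * 2 ^ (a + 1) + 1) * B := by
          rw [pow_succ]
          nlinarith

end Pool.Agent.H94.EN
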