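import Pool.Agent.H94.EN.GRC

/-!
# Integration by parts for the Jacobian in the plane
-/

namespace Pool.Agent.H94.EN

open MeasureTheory Set Metric Filter Topology Pool.Agent.H93.BL Pool.Agent.H93.EN
open scoped ContDiff

theorem gr0_zero (g : ℂ → ℝ) (hg : ContDiff ℝ 1 g) (hc : HasCompactSupport g) (w : ℂ) :
    ∫ x, fderiv ℝ g x w = 0 := by
  have h1 := grc_int g hg hc w
  have h := integral_mul_fderiv_eq_neg_fderiv_mul_of_integrable (𝕜 := ℝ) (μ := (volume : Measure ℂ))
    (f := fun _ : ℂ => (1 : ℝ)) (g := g) (v := w)
    (by simp) (by simpa using h1.1.integrable_of_hasCompactSupport h1.2)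
    (by simpa using hg.continuous.integrable_of_hasCompactSupport hc)
    (fun x _ => differentiableAt_const _) (fun x _ => hg.differentiable (by norm_num) x)
  simpa using h

theorem gr0 : T_GR0 := by
  intro v η hv hη hc
  have hp := grc_pt v η hv hη
  have hA := grc_c1 v η hv hη hc Complex.I
  have hB := grc_c1 v η hv hη hc 1
  have iA := grc_int _ hA.1 hA.2 1
  have iB := grc_int _ hB.1 hB.2 Complex.I
  have jA := iA.1.integrable_of_hasCompactSupport (μ := (volume : Measure ℂ)) iA.2
  have jB := iB.1.integrable_of_hasCompactSupport (μ := (volume : Measure ℂ)) iB.2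
  have iR := grc_rest v η hv hη hc
  have jR := iR.1.integrable_of_hasCompactSupport (μ := (volume : Measure ℂ)) iR.2
  rw [integral_congr_ae (Eventually.of_forall hp), integral_sub, integral_sub, integral_const_mul,
    integral_const_mul, integral_const_mul, gr0_zero _ hA.1 hA.2, gr0_zero _ hB.1 hB.2]
  · ring
  · exact jA.const_mul _
  · exact jB.const_mul _
  · exact (jA.const_mul _).sub (jB.const_mul _)
  · exact jR.const_mul _

end Pool.Agent.H94.EN
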