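import Pool.Agent.H94.EN.GRC

/-!
# Integration by parts for the Jacobian in the upper half plane
-/

namespace Pool.Agent.H94.EN

open MeasureTheory Set Metric Filter Topology Pool.Agent.H93.BL Pool.Agent.H93.EN
open scoped ContDiff

theorem grh_meas : MeasurableSet {x : ℂ | 0 < x.im} :=
  (isOpen_lt continuous_const Complex.continuous_im).measurableSet

theorem grh_fub (f : ℂ → ℝ) :
    ∫ x in {x : ℂ | 0 < x.im}, f x =
      ∫ p, f (⟨p.1, p.2⟩ : ℂ) ∂((volume : Measure ℝ).prod (volume.restrict (Ioi (0 : ℝ)))) := by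
  have e := Complex.volume_preserving_equiv_real_prod
  have hs : {x : ℂ | 0 < x.im} = Complex.measurableEquivRealProd ⁻¹' (univ ×ˢ Ioi (0 : ℝ)) := by
    ext x
    simp [Complex.measurableEquivRealProd]
  have h1 := e.setIntegral_preimage_emb (Complex.measurableEquivRealProd.measurableEmbedding)
    (fun p : ℝ × ℝ => f (⟨p.1, p.2⟩ : ℂ)) (univ ×ˢ Ioi (0 : ℝ))
  rw [← hs] at h1
  have h2 : ∫ x in {x : ℂ | 0 < x.im}, f x = ∫ x in {x : ℂ | 0 < x.im},
      (fun p : ℝ × ℝ => f (⟨p.1, p.2⟩ : ℂ)) (Complex.measurableEquivRealProd x) := rfl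
  rw [h2, h1, Measure.volume_eq_prod, ← Measure.prod_restrict, Measure.restrict_univ]

theorem grh_int (f : ℂ → ℝ) (hf : Continuous f) (hc : HasCompactSupport f) :
    Integrable (fun p : ℝ × ℝ => f (⟨p.1, p.2⟩ : ℂ))
      ((volume : Measure ℝ).prod (volume.restrict (Ioi (0 : ℝ)))) := by
  have e := Complex.volume_preserving_equiv_real_prod
  have h0 : Integrable f := hf.integrable_of_hasCompactSupport hc
  have h1 : Integrable (fun p : ℝ × ℝ => f (⟨p.1, p.2⟩ : ℂ)) :=
    (e.integrable_comp_emb (Complex.measurableEquivRealProd.measurableEmbedding)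
      (g := fun p : ℝ × ℝ => f (⟨p.1, p.2⟩ : ℂ))).1 h0
  rw [Measure.volume_eq_prod] at h1
  have h2 : ((volume : Measure ℝ).prod (volume.restrict (Ioi (0 : ℝ)))) =
      ((volume : Measure ℝ).prod volume).restrict (univ ×ˢ Ioi (0 : ℝ)) := by
    rw [← Measure.prod_restrict, Measure.restrict_univ]
  rw [h2]
  exact h1.integrableOn

theorem grh_x (g : ℂ → ℝ) (hg : ContDiff ℝ 1 g) (hc : HasCompactSupport g) :
    ∫ x in {x : ℂ | 0 < x.im}, fderiv ℝ g x 1 = 0 := by
  have h1 := grc_int g hg hc 1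
  rw [grh_fub, integral_prod_symm _ (grh_int _ h1.1 h1.2)]
  have : ∀ y : ℝ, ∫ x : ℝ, fderiv ℝ g (⟨x, y⟩ : ℂ) 1 = 0 := by
    intro y
    have hl : ∀ x : ℝ, HasDerivAt (fun x : ℝ => (⟨x, y⟩ : ℂ)) 1 x := by
      intro x
      have : (fun x : ℝ => (⟨x, y⟩ : ℂ)) = fun x : ℝ => (x : ℂ) + (y : ℂ) * Complex.I := by
        funext x
        apply Complex.ext <;> simp
      rw [this]
      exact (Complex.ofRealCLM.hasDerivAt (x := x)).add_const _
    have hd : ∀ x : ℝ, HasDerivAt (fun x : ℝ => g (⟨x, y⟩ : ℂ)) (fderiv ℝ g (⟨x, y⟩ : ℂ) 1) x :=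
      fun x => ((hg.differentiable (by norm_num) _).hasFDerivAt).comp_hasDerivAt x (hl x)
    have hcl : Topology.IsClosedEmbedding (fun x : ℝ => (⟨x, y⟩ : ℂ)) := by
      have hiso : Isometry (fun x : ℝ => (⟨x, y⟩ : ℂ)) := by
        refine Isometry.of_dist_eq (fun a b => ?_)
        exact Complex.dist_of_im_eq (z := ⟨a, y⟩) (w := ⟨b, y⟩) rfl
      exact hiso.isClosedEmbedding
    have hcs : HasCompactSupport (fun x : ℝ => g (⟨x, y⟩ : ℂ)) := hc.comp_isClosedEmbedding hcl
    have hcs' : HasCompactSupport (fun x : ℝ => fderiv ℝ g (⟨x, y⟩ : ℂ) 1) :=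
      h1.2.comp_isClosedEmbedding hcl
    exact integral_eq_zero_of_hasDerivAt_of_integrable hd
      ((h1.1.comp hcl.continuous).integrable_of_hasCompactSupport hcs')
      ((hg.continuous.comp hcl.continuous).integrable_of_hasCompactSupport hcs)
  simp [this]

theorem grh_y (g : ℂ → ℝ) (hg : ContDiff ℝ 1 g) (hc : HasCompactSupport g)
    (h0 : ∀ x : ℂ, x.im = 0 → g x = 0) :
    ∫ x in {x : ℂ | 0 < x.im}, fderiv ℝ g x Complex.I = 0 := by
  have h1 := grc_int g hg hc Complex.I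
  rw [grh_fub, integral_prod _ (grh_int _ h1.1 h1.2)]
  have : ∀ x : ℝ, ∫ y in Ioi (0 : ℝ), fderiv ℝ g (⟨x, y⟩ : ℂ) Complex.I = 0 := by
    intro x
    have hl : ∀ y : ℝ, HasDerivAt (fun y : ℝ => (⟨x, y⟩ : ℂ)) Complex.I y := by
      intro y
      have : (fun y : ℝ => (⟨x, y⟩ : ℂ)) = fun y : ℝ => (x : ℂ) + (y : ℂ) * Complex.I := by
        funext y
        apply Complex.ext <;> simp
      rw [this]
      have := ((Complex.ofRealCLM.hasDerivAt (x := y)).mul_const Complex.I).const_add (x : ℂ)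
      simpa using this
    have hd : ∀ y : ℝ, HasDerivAt (fun y : ℝ => g (⟨x, y⟩ : ℂ))
        (fderiv ℝ g (⟨x, y⟩ : ℂ) Complex.I) y :=
      fun y => ((hg.differentiable (by norm_num) _).hasFDerivAt).comp_hasDerivAt y (hl y)
    have hcl : Topology.IsClosedEmbedding (fun y : ℝ => (⟨x, y⟩ : ℂ)) := by
      have hiso : Isometry (fun y : ℝ => (⟨x, y⟩ : ℂ)) := by
        refine Isometry.of_dist_eq (fun a b => ?_)
        exact Complex.dist_of_re_eq (z := ⟨x, a⟩) (w := ⟨x, b⟩) rfl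
      exact hiso.isClosedEmbedding
    have hcs : HasCompactSupport (fun y : ℝ => g (⟨x, y⟩ : ℂ)) := hc.comp_isClosedEmbedding hcl
    have hcs' : HasCompactSupport (fun y : ℝ => fderiv ℝ g (⟨x, y⟩ : ℂ) Complex.I) :=
      h1.2.comp_isClosedEmbedding hcl
    have ht : Tendsto (fun y : ℝ => g (⟨x, y⟩ : ℂ)) atTop (𝓝 0) :=
      hcs.is_zero_at_infty.mono_left atTop_le_cocompact
    have := integral_Ioi_of_hasDerivAt_of_tendsto'
      (f := fun y : ℝ => g (⟨x, y⟩ : ℂ)) (a := 0) (m := 0) (fun y _ => hd y)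
      ((h1.1.comp hcl.continuous).integrable_of_hasCompactSupport hcs').integrableOn ht
    rw [this, h0 _ rfl]
    simp
  simp [this]

theorem grh0 : T_GRH0 := by
  intro v η hv hη hc hbd
  have hp := grc_pt v η hv hη
  have hA := grc_c1 v η hv hη hc Complex.I
  have hB := grc_c1 v η hv hη hc 1
  have iA := grc_int _ hA.1 hA.2 1
  have iB := grc_int _ hB.1 hB.2 Complex.I
  have jA := (iA.1.integrable_of_hasCompactSupport (μ := (volume : Measure ℂ)) iA.2).integrableOn
    (s := {x : ℂ | 0 < x.im})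
  have jB := (iB.1.integrable_of_hasCompactSupport (μ := (volume : Measure ℂ)) iB.2).integrableOn
    (s := {x : ℂ | 0 < x.im})
  have iR := grc_rest v η hv hη hc
  have jR := (iR.1.integrable_of_hasCompactSupport (μ := (volume : Measure ℂ)) iR.2).integrableOn
    (s := {x : ℂ | 0 < x.im})
  have hB0 : ∀ x : ℂ, x.im = 0 → η x * imv v 1 x = 0 := by
    intro x hx
    by_cases h : x ∈ tsupport η
    · rw [imv, hbd x h hx, mul_zero]
    · rw [image_eq_zero_of_notMem_tsupport h, zero_mul]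
  rw [integral_congr_ae (Eventually.of_forall hp), integral_sub, integral_sub, integral_const_mul,
    integral_const_mul, integral_const_mul, grh_x _ hA.1 hA.2, grh_y _ hB.1 hB.2 hB0]
  · ring
  · exact jA.const_mul _
  · exact jB.const_mul _
  · exact (jA.const_mul _).sub (jB.const_mul _)
  · exact jR.const_mul _

end Pool.Agent.H94.EN
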