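import Pool.Agent.H93.EN.Targets4

/-!
# Integration by parts for the Jacobian: pointwise identity
-/

namespace Pool.Agent.H94.EN

open MeasureTheory Set Metric Filter Topology Pool.Agent.H93.BL Pool.Agent.H93.EN
open scoped ContDiff

/-- the real function `Im (conj v * v_w)` -/
noncomputable def imv (v : ℂ → ℂ) (w x : ℂ) : ℝ := ((starRingEnd ℂ) (v x) * fderiv ℝ v x w).im

theorem grc_hasFDerivAt (v : ℂ → ℂ) (hv : ContDiff ℝ 2 v) (w x : ℂ) :
    ∃ L : ℂ →L[ℝ] ℝ, HasFDerivAt (imv v w) L x ∧ ∀ z, L z =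
      ((starRingEnd ℂ) (fderiv ℝ v x z) * fderiv ℝ v x w +
        (starRingEnd ℂ) (v x) * fderiv ℝ (fderiv ℝ v) x z w).im := by
  have h1 : HasFDerivAt v (fderiv ℝ v x) x := (hv.differentiable (by norm_num) x).hasFDerivAt
  have h2 : HasFDerivAt (fderiv ℝ v) (fderiv ℝ (fderiv ℝ v) x) x := by
    have : ContDiff ℝ 1 (fderiv ℝ v) := hv.fderiv_right (by norm_num)
    exact (this.differentiable (by norm_num) x).hasFDerivAt
  have h3 : HasFDerivAt (fun z => fderiv ℝ v z w)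
      ((ContinuousLinearMap.apply ℝ ℂ w).comp (fderiv ℝ (fderiv ℝ v) x)) x :=
    (ContinuousLinearMap.apply ℝ ℂ w).hasFDerivAt.comp x h2
  have h4 : HasFDerivAt (fun z => (starRingEnd ℂ) (v z))
      ((Complex.conjCLE : ℂ →L[ℝ] ℂ).comp (fderiv ℝ v x)) x :=
    (Complex.conjCLE : ℂ →L[ℝ] ℂ).hasFDerivAt.comp x h1
  have h5 := h4.mul h3
  have h6 := Complex.imCLM.hasFDerivAt.comp x h5
  refine ⟨_, h6, fun z => ?_⟩
  simp only [ContinuousLinearMap.comp_apply, ContinuousLinearMap.add_apply,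
    ContinuousLinearMap.smul_apply, ContinuousLinearMap.apply_apply, smul_eq_mul,
    Complex.imCLM_apply]
  congr 1
  simp
  ring

theorem grc_contDiff (v : ℂ → ℂ) (hv : ContDiff ℝ 2 v) (w : ℂ) : ContDiff ℝ 1 (imv v w) := by
  have h2 : ContDiff ℝ 1 (fderiv ℝ v) := hv.fderiv_right (by norm_num)
  have h3 : ContDiff ℝ 1 (fun z => fderiv ℝ v z w) := h2.clm_apply contDiff_const
  have h4 : ContDiff ℝ 1 (fun z => (starRingEnd ℂ) (v z)) :=
    (Complex.conjCLE : ℂ →L[ℝ] ℂ).contDiff.comp (hv.of_le (by norm_num))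
  exact Complex.imCLM.contDiff.comp (h4.mul h3)

theorem grc_pt (v : ℂ → ℂ) (η : ℂ → ℝ) (hv : ContDiff ℝ 2 v) (hη : ContDiff ℝ 2 η) (x : ℂ) :
    η x * ((starRingEnd ℂ) (fderiv ℝ v x 1) * fderiv ℝ v x Complex.I).im =
      (1 / 2) * fderiv ℝ (fun z => η z * imv v Complex.I z) x 1 -
      (1 / 2) * fderiv ℝ (fun z => η z * imv v 1 z) x Complex.I -
      (1 / 2) * ((starRingEnd ℂ) (v x) * ((fderiv ℝ η x 1 : ℂ) * fderiv ℝ v x Complex.I -
      (fderiv ℝ η x Complex.I : ℂ) * fderiv ℝ v x 1)).im := by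
  obtain ⟨LA, hA, hA'⟩ := grc_hasFDerivAt v hv Complex.I x
  obtain ⟨LB, hB, hB'⟩ := grc_hasFDerivAt v hv 1 x
  have hE : HasFDerivAt η (fderiv ℝ η x) x := (hη.differentiable (by norm_num) x).hasFDerivAt
  have e1 := (hE.mul hA).fderiv
  have e2 := (hE.mul hB).fderiv
  have hs : fderiv ℝ (fderiv ℝ v) x 1 Complex.I = fderiv ℝ (fderiv ℝ v) x Complex.I 1 := by
    have := hv.contDiffAt (x := x)
    exact (this.isSymmSndFDerivAt (by simp)).eq 1 Complex.I
  have f1 : fderiv ℝ (fun z => η z * imv v Complex.I z) x 1 =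
      η x * LA 1 + imv v Complex.I x * fderiv ℝ η x 1 := by
    rw [show (fun z => η z * imv v Complex.I z) = η * imv v Complex.I from rfl, e1]
    simp [smul_eq_mul]
  have f2 : fderiv ℝ (fun z => η z * imv v 1 z) x Complex.I =
      η x * LB Complex.I + imv v 1 x * fderiv ℝ η x Complex.I := by
    rw [show (fun z => η z * imv v 1 z) = η * imv v 1 from rfl, e2]
    simp [smul_eq_mul]
  rw [f1, f2, hA', hB', hs]
  simp only [imv, Complex.mul_im, Complex.add_im, Complex.sub_im, Complex.sub_re, Complex.mul_re,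
    Complex.ofReal_re, Complex.ofReal_im, Complex.conj_re, Complex.conj_im]
  ring

theorem grc_c1 (v : ℂ → ℂ) (η : ℂ → ℝ) (hv : ContDiff ℝ 2 v) (hη : ContDiff ℝ 2 η)
    (hc : HasCompactSupport η) (w : ℂ) :
    ContDiff ℝ 1 (fun z => η z * imv v w z) ∧ HasCompactSupport (fun z => η z * imv v w z) :=
  ⟨(hη.of_le (by norm_num)).mul (grc_contDiff v hv w), hc.mul_right⟩

theorem grc_int (g : ℂ → ℝ) (hg : ContDiff ℝ 1 g) (hc : HasCompactSupport g) (w : ℂ) :
    Continuous (fun x => fderiv ℝ g x w) ∧ HasCompactSupport (fun x => fderiv ℝ g x w) := by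
  refine ⟨(hg.continuous_fderiv (by norm_num)).clm_apply continuous_const, ?_⟩
  exact (hc.fderiv (𝕜 := ℝ)).comp_left (g := fun L : ℂ →L[ℝ] ℝ => L w) rfl

theorem grc_rest (v : ℂ → ℂ) (η : ℂ → ℝ) (hv : ContDiff ℝ 2 v) (hη : ContDiff ℝ 2 η)
    (hc : HasCompactSupport η) :
    Continuous (fun x => ((starRingEnd ℂ) (v x) * ((fderiv ℝ η x 1 : ℂ) * fderiv ℝ v x Complex.I -
      (fderiv ℝ η x Complex.I : ℂ) * fderiv ℝ v x 1)).im) ∧
    HasCompactSupport (fun x => ((starRingEnd ℂ) (v x) * ((fderiv ℝ η x 1 : ℂ) *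
      fderiv ℝ v x Complex.I - (fderiv ℝ η x Complex.I : ℂ) * fderiv ℝ v x 1)).im) := by
  have hη1 : ContDiff ℝ 1 η := hη.of_le (by norm_num)
  have a := fun w => grc_int η hη1 hc w
  have b : ∀ w, Continuous (fun x => fderiv ℝ v x w) := fun w =>
    (hv.continuous_fderiv (by norm_num)).clm_apply continuous_const
  have c : ∀ w, Continuous (fun x => (fderiv ℝ η x w : ℂ)) := fun w =>
    Complex.continuous_ofReal.comp (a w).1
  refine ⟨Complex.continuous_im.comp ((Complex.continuous_conj.comp hv.continuous).mul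
    (((c 1).mul (b Complex.I)).sub ((c Complex.I).mul (b 1)))), ?_⟩
  refine HasCompactSupport.intro hc.isCompact (fun x hx => ?_)
  have h0 : fderiv ℝ η x = 0 := by
    by_contra h
    exact hx (support_fderiv_subset ℝ h)
  simp [h0]

end Pool.Agent.H94.EN
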